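import Pool.Agent.Helper7.SH.Kg

/-!
PROJECT ALLQ (MP_274814_nt), block K_base: positivity and the summary `Kf_main`.
-/

set_option autoImplicit false

namespace Pool.Agent.Helper7.SH

open Finset Complex Pool.Agent.Helper34.LT LTG Pool.Agent.Helper34.LU Pool.Agent.Helper49.SH

noncomputable section

variable {q : ℕ} {s : Finset ℕ} {ρ : ℕ → ℂ} {κ : s → ℂ} {c : Polynomial ℤ → ℂ}
  {f : (s → ℂ) → ℂ}

/-- real vector -/
def cR {ι : Type} (x : ι → ℝ) : ι → ℂ := fun i => (x i : ℂ)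

theorem cj_cR {ι : Type} (x : ι → ℝ) : cj (cR x) = cR x := by
  funext i
  simp [cj, cR]

/-- `κ ρ` is real -/
theorem kr_real (hs : HS q s) (hne : ∃ z, f z ≠ 0) (hqp : QPS q s ρ κ c f) (u : s) :
    κ u * ρ u = ((κ u * ρ u).re : ℂ) := by
  have h3 := hs.three
  have hq : q ≠ 0 := by omega
  have hpi : (Real.pi * I : ℂ) ≠ 0 := mul_ne_zero (by exact_mod_cast Real.pi_ne_zero) I_ne_zero
  obtain ⟨ξ, hξ⟩ := exists_xi hs hne hqp
  obtain ⟨u1, u2, u3⟩ := hs.mem u u.2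
  have h1 := hξ u (HS_UU hs u.2)
  have h2 := hξ (q - u) (HS_UU' hs u.2)
  rw [Kx_mem hs] at h1
  rw [Kx_neg hs] at h2
  have h4 : zt q ^ (q - (u : ℕ)) = (starRingEnd ℂ) (zt q ^ (u : ℕ)) := by
    rw [map_pow, Pool.Agent.Helper59.LT.zt_conj q hq, inv_pow]
    refine eq_inv_of_mul_eq_one_left ?_
    rw [← pow_add, Nat.sub_add_cancel u2.le, Pool.Agent.Helper59.LT.zt_pow q hq]
  have h5 : ∀ x : ℂ, Polynomial.aeval ((starRingEnd ℂ) x) ξ =
      (starRingEnd ℂ) (Polynomial.aeval x ξ) := by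
    intro x
    rw [Polynomial.aeval_def, Polynomial.aeval_def, Polynomial.eval₂_eq_sum_range,
      Polynomial.eval₂_eq_sum_range, map_sum]
    refine Finset.sum_congr rfl fun n _ => ?_
    rw [map_mul, map_pow]
    simp
  rw [h4, h5, h1] at h2
  have h6 : (starRingEnd ℂ) (κ u * ρ u) = κ u * ρ u := by
    rw [map_div₀, map_mul (starRingEnd ℂ) (Real.pi : ℂ) I, Complex.conj_ofReal, Complex.conj_I,
      mul_neg, div_neg, neg_inj] at h2
    exact (div_left_inj' hpi).1 h2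
  exact (Complex.conj_eq_iff_re.1 h6).symm

theorem Qf_real (hs : HS q s) (hne : ∃ z, f z ≠ 0) (hqp : QPS q s ρ κ c f) (x : Iq q → ℝ) :
    Qf q s ρ κ (cR x) = ((∑ u : s, (κ u * ρ u).re * ‖em q u (cR x)‖ ^ 2 : ℝ) : ℂ) := by
  have h3 := hs.three
  unfold Qf
  rw [Complex.ofReal_sum]
  refine Finset.sum_congr rfl fun u _ => ?_
  obtain ⟨u1, u2, u3⟩ := hs.mem u u.2
  have h1 := em_cj q u (by omega) u2.le (cR x)
  rw [cj_cR] at h1
  rw [h1, mul_assoc, Complex.mul_conj, Complex.normSq_eq_norm_sq, kr_real hs hne hqp u]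
  push_cast
  simp

/-- `FK` is bounded on real vectors -/
theorem FK_bdd (hs : HS q s) (hd : Differentiable ℂ f) (hne : ∃ z, f z ≠ 0)
    (hqp : QPS q s ρ κ c f) : ∃ M : ℝ, 0 ≤ M ∧ ∀ x : Iq q → ℝ, ‖FK q s ρ κ f (cR x)‖ ≤ M := by
  obtain ⟨E, -, hE⟩ := exists_E hs hne hqp
  have hcR : Continuous (cR : (Iq q → ℝ) → (Iq q → ℂ)) :=
    continuous_pi fun i => Complex.continuous_ofReal.comp (continuous_apply i)
  have hK : IsCompact (Set.Icc (0 : Iq q → ℝ) 1) := isCompact_Icc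
  obtain ⟨M, hM⟩ := hK.exists_bound_of_continuousOn
    ((FK_diff (q := q) (ρ := ρ) (κ := κ) hd).continuous.comp hcR).continuousOn
  refine ⟨max M 0, le_max_right _ _, fun x => ?_⟩
  set l : Iq q → ℤ := fun i => ⌊x i⌋ with hl
  set y : Iq q → ℝ := fun i => Int.fract (x i) with hy
  have h1 : cR x = cR y + zv l := by
    funext i
    have := Int.fract_add_floor (x i)
    simp only [cR, hy, hl, zv, Pi.add_apply]
    exact_mod_cast this.symm
  have h2 : ‖FK q s ρ κ f (cR x)‖ = ‖FK q s ρ κ f (cR y)‖ := by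
    rw [h1, FK_per hs hne hqp, ← hE, norm_mul, Complex.norm_exp]
    have h4 : (-(Real.pi * I * Eb E (zv l) (cR y)) : ℂ) =
        ((-(Real.pi * ∑ i, ∑ j, (E i j : ℝ) * l i * y j) : ℝ) : ℂ) * I := by
      unfold Eb zv cR
      push_cast
      ring
    rw [h4, Complex.re_ofReal_mul, Complex.I_re, mul_zero, Real.exp_zero, one_mul]
  rw [h2]
  refine le_trans (hM y ⟨fun i => Int.fract_nonneg _, fun i => (Int.fract_lt_one _).le⟩)
    (le_max_left _ _)

theorem g_bound (hs : HS q s) (hρ : ∀ u ∈ s, ρ u ≠ 0) (hd : Differentiable ℂ f)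
    (hne : ∃ z, f z ≠ 0) (hqp : QPS q s ρ κ c f) : ∃ M : ℝ, 0 ≤ M ∧ ∀ z : s → ℂ,
      ‖f z * f (-z)‖ ≤ M * Real.exp (∑ u : s, (κ u * ρ u).re * ‖z u / ρ u‖ ^ 2) := by
  obtain ⟨M, hM0, hM⟩ := FK_bdd hs hd hne hqp
  refine ⟨M, hM0, fun z => ?_⟩
  obtain ⟨x, hx⟩ := zc_real hs hρ z
  have h1 := hM x
  have h2 : ∀ u : s, em q u (cR x) = z u / ρ u := by
    intro u
    have := congrFun hx u
    rw [eq_div_iff (hρ u u.2), mul_comm]
    exact this
  unfold FK at h1
  have hx' : zc q s ρ (cR x) = z := hx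
  rw [Qf_real hs hne hqp, hx', norm_mul, Complex.norm_exp, Complex.neg_re, Complex.ofReal_re] at h1
  simp_rw [h2] at h1
  have h3 : ‖f z * f (-z)‖ = Real.exp (∑ u : s, (κ u * ρ u).re * ‖z u / ρ u‖ ^ 2) *
      (Real.exp (-∑ u : s, (κ u * ρ u).re * ‖z u / ρ u‖ ^ 2) * ‖f z * f (-z)‖) := by
    rw [← mul_assoc, ← Real.exp_add, add_neg_cancel, Real.exp_zero, one_mul]
  rw [h3, mul_comm M]
  exact mul_le_mul_of_nonneg_left h1 (Real.exp_pos _).le

/-- positivity -/
theorem kr_pos (hs : HS q s) (hρ : ∀ u ∈ s, ρ u ≠ 0) (hκ : ∀ u, κ u ≠ 0)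
    (hd : Differentiable ℂ f) (hne : ∃ z, f z ≠ 0) (hqp : QPS q s ρ κ c f) (v : s) :
    0 < (κ v * ρ v).re := by
  classical
  by_contra hcon
  have hr : (κ v * ρ v).re < 0 := by
    refine lt_of_le_of_ne (not_lt.1 hcon) fun h => ?_
    have h1 := kr_real hs hne hqp v
    rw [h, Complex.ofReal_zero] at h1
    exact mul_ne_zero (hκ v) (hρ v v.2) h1
  obtain ⟨M, hM0, hM⟩ := g_bound hs hρ hd hne hqp
  obtain ⟨z, hz⟩ := prod_ne hd hne
  set e : s → ℂ := Pi.single v 1 with he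
  set h : ℂ → ℂ := fun t => f (z + t • e) * f (-(z + t • e)) with hh
  have hl : Differentiable ℂ (fun t : ℂ => z + t • e) :=
    (differentiable_id.smul_const e).const_add z
  have hdh : Differentiable ℂ h := (hd.comp hl).mul (hd.comp hl.neg)
  set C : ℝ := M * Real.exp (∑ u ∈ univ.erase v, (κ u * ρ u).re * ‖z u / ρ u‖ ^ 2) with hC
  have hC0 : 0 ≤ C := mul_nonneg hM0 (Real.exp_pos _).le
  have hb : ∀ t : ℂ, ‖h t‖ ≤ C * Real.exp ((κ v * ρ v).re * ‖(z v + t) / ρ v‖ ^ 2) := by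
    intro t
    refine (hM (z + t • e)).trans (le_of_eq ?_)
    rw [← Finset.add_sum_erase univ _ (mem_univ v), Real.exp_add, hC]
    have h1 : ∑ u ∈ univ.erase v, (κ u * ρ u).re * ‖(z + t • e) u / ρ u‖ ^ 2 =
        ∑ u ∈ univ.erase v, (κ u * ρ u).re * ‖z u / ρ u‖ ^ 2 := by
      refine Finset.sum_congr rfl fun u hu => ?_
      rw [Pi.add_apply, Pi.smul_apply, he, Pi.single_eq_of_ne (Finset.ne_of_mem_erase hu),
        smul_zero, add_zero]
    have h2 : (z + t • e) v = z v + t := by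
      rw [Pi.add_apply, Pi.smul_apply, he, Pi.single_eq_same, smul_eq_mul, mul_one]
    rw [h1, h2]
    ring
  have hbd : Bornology.IsBounded (Set.range h) := by
    rw [isBounded_iff_forall_norm_le]
    refine ⟨C, ?_⟩
    rintro _ ⟨t, rfl⟩
    refine (hb t).trans ?_
    have h1 : Real.exp ((κ v * ρ v).re * ‖(z v + t) / ρ v‖ ^ 2) ≤ 1 := by
      rw [Real.exp_le_one_iff]
      exact mul_nonpos_of_nonpos_of_nonneg hr.le (by positivity)
    calc C * _ ≤ C * 1 := mul_le_mul_of_nonneg_left h1 hC0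
      _ = C := mul_one C
  have hconst : ∀ t, h t = h 0 := fun t => hdh.apply_eq_apply_of_bounded hbd t 0
  have h0 : h 0 ≠ 0 := by
    simp only [hh, zero_smul, add_zero]
    exact hz
  have hlim : Filter.Tendsto (fun T : ℝ => C * Real.exp ((κ v * ρ v).re * T ^ 2)) Filter.atTop
      (nhds (C * 0)) := by
    refine Filter.Tendsto.const_mul C (Real.tendsto_exp_atBot.comp ?_)
    exact (Filter.tendsto_pow_atTop two_ne_zero).const_mul_atTop_of_neg hr
  rw [mul_zero] at hlim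
  obtain ⟨T, hT⟩ := (hlim.eventually_lt_const (norm_pos_iff.2 h0)).exists
  have h1 := hb (ρ v * (T : ℂ) - z v)
  rw [hconst, add_sub_cancel, mul_div_cancel_left₀ _ (hρ v v.2), Complex.norm_real,
    Real.norm_eq_abs, sq_abs] at h1
  exact absurd (lt_of_le_of_lt h1 hT) (lt_irrefl _)

/-- summary: the form part of `K_base` -/
theorem Kf_main (hs : HS q s) (hρ : ∀ u ∈ s, ρ u ≠ 0) (hκ : ∀ u, κ u ≠ 0)
    (hd : Differentiable ℂ f) (hne : ∃ z, f z ≠ 0) (hqp : QPS q s ρ κ c f) :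
    ∃ (ξ : Polynomial ℚ) (E : Iq q → Iq q → ℚ), KForm q ξ E ∧ Pol E (Ns q s) ∧
      AT E (Ns q s) (FK q s ρ κ f) ∧ FK q s ρ κ f ≠ 0 ∧
      (∀ w w', Eb E w w' = Bf q s ρ κ w w') ∧
      (∀ (l : Iq q → ℤ) (w : Iq q → ℂ), FK q s ρ κ f (w + zv l) =
        Complex.exp (-(Real.pi * I * Eb E (zv l) w)) * FK q s ρ κ f w) ∧
      (∀ u : s, Polynomial.aeval (zt q ^ (u : ℕ)) ξ = κ u * ρ u / (Real.pi * I)) ∧
      ∀ u : s, 0 < (κ u * ρ u).re ∧ κ u * ρ u = ((κ u * ρ u).re : ℂ) := by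
  have h3 := hs.three
  have hq : q ≠ 0 := by omega
  obtain ⟨E, hEa, hE⟩ := exists_E hs hne hqp
  obtain ⟨ξ, hξ⟩ := exists_xi hs hne hqp
  refine ⟨ξ, E, ?_, ?_, FK_AT hs hd hne hqp hE, FK_ne hs hρ hd hne, hE, ?_, ?_, ?_⟩
  · intro w w'
    rw [hE, Bf_sum hs]
    exact Finset.sum_congr rfl fun u hu => by rw [hξ u hu]
  · refine ⟨hEa, ?_, ?_, finrank_Ns q s hs⟩
    · intro e he e' he'
      rw [hE]
      unfold Bf
      refine Finset.sum_eq_zero fun u _ => ?_
      rw [mem_Ns.1 he u u.2, mem_Ns.1 he' u u.2]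
      ring
    · intro e he he0
      have h1 : -(I * Eb E e (cj e)) =
          ((∑ u : s, (κ u * ρ u).re * ‖em q (q - u) e‖ ^ 2 / Real.pi : ℝ) : ℂ) := by
        rw [hE]
        unfold Bf
        rw [Finset.mul_sum, ← Finset.sum_neg_distrib, Complex.ofReal_sum]
        refine Finset.sum_congr rfl fun u _ => ?_
        obtain ⟨u1, u2, u3⟩ := hs.mem u u.2
        have hpi : (Real.pi : ℂ) ≠ 0 := by exact_mod_cast Real.pi_ne_zero
        rw [mem_Ns.1 he u u.2, em_cj' q u hq u2.le, zero_mul, zero_sub]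
        have h2 : em q (q - u) e * (starRingEnd ℂ) (em q (q - u) e) =
            ((‖em q (q - u) e‖ ^ 2 : ℝ) : ℂ) := by
          rw [Complex.mul_conj, Complex.normSq_eq_norm_sq]
        rw [h2]
        have h4 := kr_real hs hne hqp u
        rw [h4]
        push_cast
        rw [Complex.ofReal_re]
        field_simp
      rw [h1, Complex.ofReal_re]
      refine Finset.sum_pos' (fun u _ => ?_) ?_
      · exact div_nonneg (mul_nonneg (kr_pos hs hρ hκ hd hne hqp u).le (by positivity))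
          Real.pi_pos.le
      · by_contra hcon
        push Not at hcon
        refine he0 (em_inj q h3 e fun v hv => ?_)
        obtain ⟨⟨v1, v2⟩, v3⟩ := mem_UU.1 hv
        by_cases h5 : v ∈ s
        · exact mem_Ns.1 he v h5
        · have h6 : q - v ∈ s := by
            by_contra h7
            exact h5 ((hs.half v v1 (by omega) v3).2 h7)
          have h7 := hcon ⟨q - v, h6⟩ (mem_univ _)
          have h8 : q - (q - v) = v := Nat.sub_sub_self (by omega)
          simp only [h8] at h7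
          by_contra h9
          have h10 : 0 < ‖em q v e‖ := norm_pos_iff.2 h9
          have h11 := kr_pos hs hρ hκ hd hne hqp ⟨q - v, h6⟩
          have h12 : 0 < (κ ⟨q - v, h6⟩ * ρ (q - v)).re * ‖em q v e‖ ^ 2 / Real.pi :=
            div_pos (mul_pos h11 (by positivity)) Real.pi_pos
          exact absurd h7 (not_le.2 h12)
  · intro l w
    rw [hE]
    exact FK_per hs hne hqp l w
  · intro u
    rw [hξ u (HS_UU hs u.2), Kx_mem hs]
  · intro u
    exact ⟨kr_pos hs hρ hκ hd hne hqp u, kr_real hs hne hqp u⟩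

end

end Pool.Agent.Helper7.SH
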