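import Pool.Agent.Helper93.SH.Vd
import Pool.Agent.Helper3.SE.Vf

/-!
PROJECT ALLQ (MP_274814_nt), block E5: the evaluation theorem.
-/

set_option autoImplicit false

namespace Pool.Agent.Helper7.SH

open Finset Complex Filter Topology
open Pool.Agent.Helper13.LT (PS)
open Pool.Agent.Helper96.LU (gb ps_gb ps_shift)
open Pool.Agent.Helper93.SH

noncomputable section

variable {ι : Type} [Fintype ι]

/-- the multiplier -/
def EE (B : (ι → ℂ) → (ι → ℂ) → ℂ) (l z : ι → ℂ) : ℂ := Complex.exp (2 * B l z + B l l)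

theorem EE_ne (B : (ι → ℂ) → (ι → ℂ) → ℂ) (l z : ι → ℂ) : EE B l z ≠ 0 := Complex.exp_ne_zero _

theorem D3_qp {B : (ι → ℂ) → (ι → ℂ) → ℂ} (hB : HB B) {φ : (ι → ℕ) → ℂ} {f : (ι → ℂ) → ℂ}
    (h : PS φ f) {l : ι → ℂ} (hl : ∀ z, f (z + l) = EE B l z * f z) (m : ι → ℕ) (z : ι → ℂ) :
    D3 φ m (z + l) = EE B l z ^ 3 * D3 φ m z := by
  have h1 := ps_D3 h (z + l)
  have h2 := (ps_D3 h z).smul (EE B l z ^ 3)
  have h3 : (fun w => f (z + l + (2 : ℂ) • w) * f (z + l - w) * f (z + l - w)) =
      fun w => EE B l z ^ 3 * (f (z + (2 : ℂ) • w) * f (z - w) * f (z - w)) := by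
    funext w
    have e1 : z + l + (2 : ℂ) • w = (z + (2 : ℂ) • w) + l := by abel
    have e2 : z + l - w = (z - w) + l := by abel
    rw [e1, e2, hl, hl]
    have e3 : EE B l (z + (2 : ℂ) • w) * (EE B l (z - w) * EE B l (z - w)) = EE B l z ^ 3 := by
      unfold EE
      rw [← Complex.exp_add, ← Complex.exp_add, ← Complex.exp_nat_mul]
      congr 1
      have e4 : B l (z - w) = B l z - B l w := by
        have := hB.add_right l (z - w) w
        rw [sub_add_cancel] at this
        rw [this]
        ring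
      rw [hB.add_right, hB.smul_right, e4]
      push_cast
      ring
    rw [← e3]
    ring
  rw [h3] at h1
  exact congrFun (h1.unique h2) m

theorem HB_herm_re {B : (ι → ℂ) → (ι → ℂ) → ℂ} (hB : HB B) (x y : ι → ℂ) :
    (B x y).re = (B y x).re := by
  have h1 := hB.real (I • x + y)
  rw [hB.add_left, hB.add_right, hB.add_right, hB.smul_left, hB.smul_left, hB.smul_right,
    hB.smul_right] at h1
  have h2 := hB.real x
  have h3 := hB.real y
  simp only [Complex.conj_I, Complex.add_im, Complex.mul_im, Complex.neg_re, Complex.neg_im,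
    Complex.I_re, Complex.I_im, Complex.mul_re] at h1
  rw [h2, h3] at h1
  linarith

theorem HB_quad {B : (ι → ℂ) → (ι → ℂ) → ℂ} (hB : HB B) (y l : ι → ℂ) :
    (B (y + l) (y + l)).re = (B y y).re + (2 * B l y + B l l).re := by
  rw [hB.add_left, hB.add_right, hB.add_right]
  have h1 := HB_herm_re hB y l
  simp only [Complex.add_re, Complex.mul_re, Complex.re_ofNat, Complex.im_ofNat, zero_mul, sub_zero]
  linarith

theorem HB_expand {B : (ι → ℂ) → (ι → ℂ) → ℂ} [DecidableEq ι] (hB : HB B) (x z : ι → ℂ) :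
    B x z = ∑ u, (starRingEnd ℂ) (x u) * B (Pi.single u 1) z := by
  let A : (ι → ℂ) →+ ℂ :=
    { toFun := fun x => B x z
      map_zero' := by
        have := hB.smul_left 0 0 z
        rw [zero_smul, map_zero, zero_mul] at this
        exact this
      map_add' := fun a b => hB.add_left a b z }
  have h1 : x = ∑ u, x u • (Pi.single u 1 : ι → ℂ) := by
    funext w
    rw [Finset.sum_apply, Finset.sum_eq_single w]
    · simp
    · intro b _ hb
      simp [Pi.single_eq_of_ne (Ne.symm hb)]
    · intro h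
      exact absurd (mem_univ w) h
  have h2 : A x = ∑ u, A (x u • (Pi.single u 1 : ι → ℂ)) := by
    conv_lhs => rw [h1]
    rw [map_sum]
  have h3 : ∀ u, A (x u • (Pi.single u 1 : ι → ℂ)) =
      (starRingEnd ℂ) (x u) * B (Pi.single u 1) z := fun u => hB.smul_left _ _ _
  simp_rw [h3] at h2
  exact h2

theorem HB_expand' {B : (ι → ℂ) → (ι → ℂ) → ℂ} [DecidableEq ι] (hB : HB B) (x z : ι → ℂ) :
    B x z = ∑ u, z u * B x (Pi.single u 1) := by
  let A : (ι → ℂ) →+ ℂ :=
    { toFun := fun z => B x z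
      map_zero' := by
        have := hB.smul_right 0 x 0
        rw [zero_smul, zero_mul] at this
        exact this
      map_add' := fun a b => hB.add_right x a b }
  have h1 : z = ∑ u, z u • (Pi.single u 1 : ι → ℂ) := by
    funext w
    rw [Finset.sum_apply, Finset.sum_eq_single w]
    · simp
    · intro b _ hb
      simp [Pi.single_eq_of_ne (Ne.symm hb)]
    · intro h
      exact absurd (mem_univ w) h
  have h2 : A z = ∑ u, A (z u • (Pi.single u 1 : ι → ℂ)) := by
    conv_lhs => rw [h1]
    rw [map_sum]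
  have h3 : ∀ u, A (z u • (Pi.single u 1 : ι → ℂ)) = z u * B x (Pi.single u 1) :=
    fun u => hB.smul_right _ _ _
  simp_rw [h3] at h2
  exact h2

theorem HB_cont_left {B : (ι → ℂ) → (ι → ℂ) → ℂ} (hB : HB B) (v : ι → ℂ) :
    Continuous fun x => B x v := by
  classical
  have h1 : (fun x => B x v) = fun x => ∑ u, (starRingEnd ℂ) (x u) * B (Pi.single u 1) v := by
    funext x
    exact HB_expand hB x v
  rw [h1]
  refine continuous_finset_sum _ fun u _ => ?_
  exact (Complex.continuous_conj.comp (continuous_apply u)).mul continuous_const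

theorem HB_cont_diag {B : (ι → ℂ) → (ι → ℂ) → ℂ} (hB : HB B) : Continuous fun x => B x x := by
  classical
  have h1 : (fun x => B x x) = fun x => ∑ u, x u * B x (Pi.single u 1) := by
    funext x
    exact HB_expand' hB x x
  rw [h1]
  refine continuous_finset_sum _ fun u _ => ?_
  exact (continuous_apply u).mul (HB_cont_left hB _)

theorem HB_real_smul {B : (ι → ℂ) → (ι → ℂ) → ℂ} (hB : HB B) (r : ℝ) (x v : ι → ℂ) :
    B ((r : ℂ) • x) v = r * B x v := by
  rw [hB.smul_left, Complex.conj_ofReal]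

/-- a direction in which the differentials of all `D3 / f^3` vanish is `0` -/
theorem dir_zero {B : (ι → ℂ) → (ι → ℂ) → ℂ} [DecidableEq ι] (hB : HB B) {φ : (ι → ℕ) → ℂ}
    {f : (ι → ℂ) → ℂ} (h : PS φ f) (L : AddSubgroup (ι → ℂ))
    (hqp : ∀ l ∈ L, ∀ z, f (z + l) = EE B l z * f z)
    (hco : ∃ R : ℝ, ∀ z, ∃ l ∈ L, ‖z - l‖ ≤ R) {p v : ι → ℂ} (hp : f p ≠ 0)
    (hD : ∀ m, HasDerivAt (fun t : ℂ => D3 φ m (p + t • v) / f (p + t • v) ^ 3) 0 0) : v = 0 := by
  obtain ⟨Lm, hLm⟩ := nondeg_affine h hp hD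
  have hfd : Differentiable ℂ f := h.diff
  have h1 : ∀ l ∈ L, Lm l = 2 * B l v := by
    intro l hl
    -- derivative of the quasi-periodicity at `p`
    have h2 : HasDerivAt (fun t : ℂ => f (p + l + t • v)) (fderiv ℂ f (p + l) v) 0 :=
      hasDerivAt_line hfd (p + l) v
    have h3 : HasDerivAt (fun t : ℂ => f (p + t • v)) (fderiv ℂ f p v) 0 :=
      hasDerivAt_line hfd p v
    have h4 : HasDerivAt (fun t : ℂ => Complex.exp (2 * B l p + B l l + t * (2 * B l v)))
        (EE B l p * (2 * B l v)) 0 := by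
      have h5 : HasDerivAt (fun t : ℂ => 2 * B l p + B l l + t * (2 * B l v)) (2 * B l v) 0 :=
        (hasDerivAt_mul_const (x := (0 : ℂ)) (2 * B l v)).const_add _
      have h6 := h5.cexp
      simp only [zero_mul, add_zero] at h6
      exact h6
    have h5 : (fun t : ℂ => f (p + l + t • v)) =
        fun t : ℂ => Complex.exp (2 * B l p + B l l + t * (2 * B l v)) * f (p + t • v) := by
      funext t
      have e1 : p + l + t • v = (p + t • v) + l := by abel
      rw [e1, hqp l hl]
      unfold EE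
      rw [hB.add_right, hB.smul_right]
      congr 2
      ring
    rw [h5] at h2
    have h6 := h2.unique (h4.mul h3)
    simp only [zero_mul, add_zero, zero_smul] at h6
    have h7 : Complex.exp (2 * B l p + B l l) = EE B l p := rfl
    rw [h7, hLm (p + l), hqp l hl] at h6
    have h8 : p + l - p = l := by abel
    rw [h8] at h6
    have h9 : EE B l p * f p * (Lm l - 2 * B l v) = 0 := by
      have h10 : fderiv ℂ f p v / f p * f p = fderiv ℂ f p v := div_mul_cancel₀ _ hp
      linear_combination h6 - EE B l p * h10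
    have h10 := (mul_eq_zero.1 h9).resolve_left (mul_ne_zero (EE_ne B l p) hp)
    exact sub_eq_zero.1 h10
  obtain ⟨R, hR⟩ := hco
  -- the additive function `T x = Lm x - 2 B x v` vanishes on `L`
  set T : (ι → ℂ) → ℂ := fun x => Lm x - 2 * B x v with hT
  have hTc : Continuous T := Lm.continuous.sub ((HB_cont_left hB v).const_mul 2)
  have hTadd : ∀ x y, T (x + y) = T x + T y := by
    intro x y
    simp only [hT, map_add, hB.add_left]
    ring
  have hTr : ∀ (r : ℝ) x, T ((r : ℂ) • x) = r * T x := by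
    intro r x
    simp only [hT, map_smul, HB_real_smul hB, smul_eq_mul]
    ring
  have hT0 : ∀ x, T x = 0 := by
    have hK : IsCompact (Metric.closedBall (0 : ι → ℂ) R) := isCompact_closedBall 0 R
    obtain ⟨M, hM⟩ := hK.exists_bound_of_continuousOn hTc.continuousOn
    intro x
    by_contra hx
    have hpos : 0 < ‖T x‖ := norm_pos_iff.2 hx
    obtain ⟨N, hN⟩ := exists_nat_gt (M / ‖T x‖)
    obtain ⟨l, hl, hb⟩ := hR (((N : ℝ) : ℂ) • x)
    have h2 := hM (((N : ℝ) : ℂ) • x - l) (by rw [mem_closedBall_zero_iff]; exact hb)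
    have h3 : T (((N : ℝ) : ℂ) • x - l) = N * T x := by
      have h4 := hTadd (((N : ℝ) : ℂ) • x - l) l
      rw [sub_add_cancel] at h4
      have h5 : T l = 0 := by
        simp only [hT]
        rw [h1 l hl, sub_self]
      rw [h5, add_zero, hTr] at h4
      rw [← h4]
      simp
    rw [h3, norm_mul] at h2
    have h6 : ‖(N : ℂ)‖ = N := by simp
    rw [h6] at h2
    rw [div_lt_iff₀ hpos] at hN
    linarith
  refine hB.nd v fun x => ?_
  have h2 := hT0 x
  have h3 := hT0 (I • x)
  simp only [hT, map_smul, smul_eq_mul, hB.smul_left, Complex.conj_I] at h2 h3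
  have h4 : (4 * I) * B x v = 0 := by linear_combination h3 - I * h2
  exact (mul_eq_zero.1 h4).resolve_left (mul_ne_zero (by norm_num) I_ne_zero)

end

end Pool.Agent.Helper7.SH
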