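import Pool.Agent.Helper7.SH.Ev

/-!
PROJECT ALLQ (MP_274814_nt), block E5: the evaluation theorem, main part.
-/

set_option autoImplicit false

namespace Pool.Agent.Helper7.SH

open Finset Complex Filter Topology
open Pool.Agent.Helper13.LT (PS)
open Pool.Agent.Helper96.LU (gb ps_gb ps_shift)
open Pool.Agent.Helper93.SH

noncomputable section

variable {ι : Type} [Fintype ι]

theorem conj_nat (n : ℕ) : (starRingEnd ℂ) (n : ℂ) = n := Complex.conj_natCast n

theorem EE_scale {B : (ι → ℂ) → (ι → ℂ) → ℂ} (hB : HB B) (n : ℕ) (l z : ι → ℂ) :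
    EE B ((n : ℂ) • l) ((n : ℂ) • z) = EE B l z ^ (n ^ 2) := by
  unfold EE
  rw [← Complex.exp_nat_mul, hB.smul_left, hB.smul_left, hB.smul_right, hB.smul_right, conj_nat]
  congr 1
  push_cast
  ring

theorem nsmul_mem' {L : AddSubgroup (ι → ℂ)} {l : ι → ℂ} (hl : l ∈ L) (n : ℕ) :
    (n : ℂ) • l ∈ L := by
  rw [Nat.cast_smul_eq_nsmul]
  exact L.nsmul_mem hl n

section

variable [DecidableEq ι] {B : (ι → ℂ) → (ι → ℂ) → ℂ} {f : (ι → ℂ) → ℂ} {L : AddSubgroup (ι → ℂ)}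
  {n : ℕ} {p : ι → ℂ} {φ : (ι → ℕ) → ℂ}

/-- common denominator -/
def F0 (n : ℕ) (f : (ι → ℂ) → ℂ) (z : ι → ℂ) : ℂ := f ((n : ℂ) • z) ^ 3 * f z ^ (3 + n ^ 2)

/-- numerators of the coordinates -/
def Fk (n : ℕ) (f : (ι → ℂ) → ℂ) (φ : (ι → ℕ) → ℂ) (m : ι → ℕ) (z : ι → ℂ) : ℂ :=
  (D3 φ m ((n : ℂ) • z) * f z ^ 3 - D3 φ m z * f ((n : ℂ) • z) ^ 3) * f z ^ (n ^ 2)

omit [DecidableEq ι] in
theorem f_scale_qp (hB : HB B) (hqp : ∀ l ∈ L, ∀ z, f (z + l) = EE B l z * f z) (n : ℕ)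
    {l : ι → ℂ} (hl : l ∈ L) (z : ι → ℂ) :
    f ((n : ℂ) • (z + l)) = EE B l z ^ (n ^ 2) * f ((n : ℂ) • z) := by
  rw [smul_add, hqp _ (nsmul_mem' hl n), EE_scale hB]

omit [DecidableEq ι] in
theorem D3_scale_qp (hB : HB B) (h : PS φ f) (hqp : ∀ l ∈ L, ∀ z, f (z + l) = EE B l z * f z)
    (n : ℕ) (m : ι → ℕ) {l : ι → ℂ} (hl : l ∈ L) (z : ι → ℂ) :
    D3 φ m ((n : ℂ) • (z + l)) = EE B l z ^ (3 * n ^ 2) * D3 φ m ((n : ℂ) • z) := by
  rw [smul_add, D3_qp hB h (hqp _ (nsmul_mem' hl n)), EE_scale hB, ← pow_mul, mul_comm 3]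

omit [DecidableEq ι] in
theorem F0_qp (hB : HB B) (hqp : ∀ l ∈ L, ∀ z, f (z + l) = EE B l z * f z) (n : ℕ)
    {l : ι → ℂ} (hl : l ∈ L) (z : ι → ℂ) :
    F0 n f (z + l) = EE B l z ^ (4 * n ^ 2 + 3) * F0 n f z := by
  unfold F0
  rw [f_scale_qp hB hqp n hl, hqp l hl, mul_pow, mul_pow, ← pow_mul]
  ring

omit [DecidableEq ι] in
theorem Fk_qp (hB : HB B) (h : PS φ f) (hqp : ∀ l ∈ L, ∀ z, f (z + l) = EE B l z * f z) (n : ℕ)
    (m : ι → ℕ) {l : ι → ℂ} (hl : l ∈ L) (z : ι → ℂ) :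
    Fk n f φ m (z + l) = EE B l z ^ (4 * n ^ 2 + 3) * Fk n f φ m z := by
  unfold Fk
  rw [D3_scale_qp hB h hqp n m hl, f_scale_qp hB hqp n hl, D3_qp hB h (hqp l hl), hqp l hl]
  ring

/-- the evaluation, general numerator -/
theorem ev_gen (hB : HB B) (h : PS φ f) (ha : ∀ m, IsAlgebraic ℚ (φ m))
    (hqp : ∀ l ∈ L, ∀ z, f (z + l) = EE B l z * f z)
    (hco : ∃ R : ℝ, ∀ z, ∃ l ∈ L, ‖z - l‖ ≤ R) (hn : 2 ≤ n) (hp : ((n : ℂ) - 1) • p ∈ L)
    (hne : f p ≠ 0) {G : (ι → ℂ) → ℂ} (hG : AE G)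
    (hGq : ∀ l ∈ L, ∀ z, G (z + l) = EE B l z ^ (4 * n ^ 2 + 3) * G z) :
    IsAlgebraic ℚ (G p / F0 n f p) := by
  have hfd : Differentiable ℂ f := h.diff
  have hfA : AE f := ⟨φ, h, ha⟩
  have hnp : (n : ℂ) • p = p + ((n : ℂ) - 1) • p := by
    rw [sub_smul, one_smul]
    abel
  have hfnp : f ((n : ℂ) • p) = EE B (((n : ℂ) - 1) • p) p * f p := by
    rw [hnp, hqp _ hp]
  have hfnp0 : f ((n : ℂ) • p) ≠ 0 := by
    rw [hfnp]
    exact mul_ne_zero (EE_ne _ _ _) hne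
  have hF0p : F0 n f p ≠ 0 := mul_ne_zero (pow_ne_zero _ hfnp0) (pow_ne_zero _ hne)
  -- the periodic functions
  set Y : (ι → ℕ) → (ι → ℂ) → ℂ := fun m z => D3 φ m z / f z ^ 3 with hY
  have hDd : ∀ m, Differentiable ℂ (D3 φ m) := fun m => (AE_D3 h ha m).diff
  have hYd : ∀ m, DifferentiableAt ℂ (Y m) p := by
    intro m
    have h1 : DifferentiableAt ℂ (fun z => (f z ^ 3)⁻¹) p :=
      ((hfd p).pow 3).fun_inv (pow_ne_zero _ hne)
    have h2 := (hDd m p).fun_mul h1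
    simp only [← div_eq_mul_inv] at h2
    exact h2
  have hYp : ∀ m, ∀ l ∈ L, ∀ z, Y m (z + l) = Y m z := by
    intro m l hl z
    simp only [hY]
    rw [D3_qp hB h (hqp l hl), hqp l hl, mul_pow,
      mul_div_mul_left _ _ (pow_ne_zero _ (EE_ne B l z))]
  have hline : ∀ m v, HasDerivAt (fun t : ℂ => Y m (p + t • v)) (fderiv ℂ (Y m) p v) 0 := by
    intro m v
    have h5 : HasFDerivAt (Y m) (fderiv ℂ (Y m) p) (p + (0 : ℂ) • v) := by
      rw [zero_smul, add_zero]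
      exact (hYd m).hasFDerivAt
    have h6 : HasDerivAt (fun t : ℂ => p + t • v) v 0 := by
      have h7 : HasDerivAt (fun t : ℂ => t • v) ((1 : ℂ) • v) 0 :=
        (hasDerivAt_id (0 : ℂ)).smul_const v
      rw [one_smul] at h7
      exact h7.const_add p
    exact h5.comp_hasDerivAt (0 : ℂ) h6
  obtain ⟨mk, hmk⟩ := Pool.Agent.Helper3.SE.exists_family
    (fun m : ι → ℕ => (fderiv ℂ (Y m) p : (ι → ℂ) →ₗ[ℂ] ℂ)) (by
      intro v hv
      refine dir_zero hB h L hqp hco hne fun m => ?_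
      have h1 := hline m v
      have h2 : fderiv ℂ (Y m) p v = 0 := hv m
      rw [h2] at h1
      exact h1)
  -- Siegel
  obtain ⟨R, hR⟩ := hco
  have hAn : AE (fun z => f ((n : ℂ) • z)) := hfA.scale n
  have hA0 : AE (F0 n f) := (hAn.pow 3).mul (hfA.pow _)
  have hAk : ∀ m, AE (Fk n f φ m) := fun m =>
    ((((AE_D3 h ha m).scale n).mul (hfA.pow 3)).sub ((AE_D3 h ha m).mul (hAn.pow 3))).mul
      (hfA.pow _)
  set W : ℕ := 4 * n ^ 2 + 3 with hW
  set ρ : (ι → ℂ) → ℝ := fun x => Real.exp (-(W * (B x x).re)) with hρ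
  have hρc : Continuous ρ := by
    refine Real.continuous_exp.comp (continuous_neg.comp ?_)
    exact continuous_const.mul (Complex.continuous_re.comp (HB_cont_diag hB))
  obtain ⟨Q, hQ, hQa, hQz⟩ := siegel_taylor (κ := Option ι) (by simp) hA0
    (f := fun o : Option ι => o.elim G (fun k => Fk n f φ (mk k)))
    (by
      intro o
      cases o with
      | none => exact hG
      | some k => exact hAk _) hρc (fun x => Real.exp_pos _)
    (isCompact_closedBall (0 : ι → ℂ) R) (by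
      intro x
      obtain ⟨l, hl, hxl⟩ := hR x
      refine ⟨x - l, by rw [mem_closedBall_zero_iff]; exact hxl, EE B l (x - l) ^ W, ?_, ?_, ?_⟩
      · have := F0_qp hB hqp n hl (x - l)
        rwa [sub_add_cancel] at this
      · intro o
        cases o with
        | none =>
          have := hGq l hl (x - l)
          rwa [sub_add_cancel] at this
        | some k =>
          have := Fk_qp hB h hqp n (mk k) hl (x - l)
          rwa [sub_add_cancel] at this
      · have h1 := HB_quad hB (x - l) l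
        rw [sub_add_cancel] at h1
        simp only [hρ]
        rw [norm_pow, EE, Complex.norm_exp, ← Real.exp_nat_mul, ← Real.exp_add, h1]
        apply le_of_eq
        congr 1
        ring)
  have hFkp : ∀ k : ι, Fk n f φ (mk k) p = 0 := by
    intro k
    unfold Fk
    have h1 : D3 φ (mk k) ((n : ℂ) • p) = EE B (((n : ℂ) - 1) • p) p ^ 3 * D3 φ (mk k) p := by
      rw [hnp, D3_qp hB h (hqp _ hp)]
    rw [h1, hfnp]
    ring
  refine Pool.Agent.Helper3.SE.eval_step hA0.diff hG.diff (fun k => (hAk (mk k)).diff) Q hQ hQa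
    ?_ hF0p hFkp ?_
  · intro x hx
    have h1 := hQz x hx
    rw [← h1]
    congr 2
    funext o
    cases o <;> rfl
  · intro v hv
    refine hmk v fun k => ?_
    set m := mk k with hm
    have h1 : HasDerivAt (fun t : ℂ => Fk n f φ m (p + t • v)) 0 0 := by
      have := hasDerivAt_line (hAk m).diff p v
      rw [hv k] at this
      exact this
    have h2 := hline m v
    have h3 : HasDerivAt (fun t : ℂ => Y m (p + ((n : ℂ) * t) • v))
        (fderiv ℂ (Y m) p v * n) 0 := by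
      have h4 : HasDerivAt (fun t : ℂ => (n : ℂ) * t) (n : ℂ) 0 := by
        simpa using (hasDerivAt_id (0 : ℂ)).const_mul (n : ℂ)
      have h5 : HasDerivAt (fun t : ℂ => Y m (p + t • v)) (fderiv ℂ (Y m) p v) ((n : ℂ) * 0) := by
        rw [mul_zero]
        exact h2
      exact HasDerivAt.comp (0 : ℂ) h5 h4
    have h4 : HasDerivAt (fun t : ℂ => F0 n f (p + t • v)) (fderiv ℂ (F0 n f) p v) 0 :=
      hasDerivAt_line hA0.diff p v
    have h5 := h4.mul (h3.sub h2)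
    have hc1 : Continuous fun t : ℂ => p + t • v := continuous_const.add (continuous_id.smul continuous_const)
    have h6 : ∀ᶠ t in 𝓝 (0 : ℂ), f (p + t • v) ≠ 0 := by
      refine (hfd.continuous.comp hc1).continuousAt.eventually_ne ?_
      simpa using hne
    have h7 : ∀ᶠ t in 𝓝 (0 : ℂ), f ((n : ℂ) • (p + t • v)) ≠ 0 := by
      have hc2 : Continuous fun t : ℂ => f ((n : ℂ) • (p + t • v)) :=
        hfd.continuous.comp (hc1.const_smul (n : ℂ))
      refine hc2.continuousAt.eventually_ne ?_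
      simpa using hfnp0
    have h8 : (fun t : ℂ => Fk n f φ m (p + t • v)) =ᶠ[𝓝 0]
        fun t : ℂ => F0 n f (p + t • v) * (Y m (p + ((n : ℂ) * t) • v) - Y m (p + t • v)) := by
      filter_upwards [h6, h7] with t ht1 ht2
      have h9 : Y m (p + ((n : ℂ) * t) • v) = Y m ((n : ℂ) • (p + t • v)) := by
        rw [← hYp m _ hp (p + ((n : ℂ) * t) • v)]
        congr 1
        rw [smul_add, sub_smul, one_smul, smul_smul]
        abel
      rw [h9]
      simp only [hY]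
      unfold Fk F0
      rw [pow_add]
      field_simp
    have h9 := h5.congr_of_eventuallyEq h8
    have h10 := h1.unique h9
    simp only [Pi.sub_apply, zero_smul, add_zero, mul_zero, sub_self, zero_add] at h10
    have h11 : F0 n f p * ((n : ℂ) - 1) * fderiv ℂ (Y m) p v = 0 := by linear_combination -h10
    have hn1 : ((n : ℂ) - 1) ≠ 0 := by
      intro hh
      have h12 : (n : ℂ) = ((1 : ℕ) : ℂ) := by
        rw [Nat.cast_one]
        exact sub_eq_zero.1 hh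
      have h13 := Nat.cast_injective h12
      omega
    exact (mul_eq_zero.1 h11).resolve_left (mul_ne_zero hF0p hn1)

theorem pd_qp (hB : HB B) (hfd : Differentiable ℂ f)
    (hqp : ∀ l ∈ L, ∀ z, f (z + l) = EE B l z * f z) (u : ι) {l : ι → ℂ} (hl : l ∈ L)
    (z : ι → ℂ) : pd u f (z + l) =
      EE B l z * (2 * B l (Pi.single u 1) * f z + pd u f z) := by
  set e : ι → ℂ := Pi.single u 1 with he
  have h2 : HasDerivAt (fun t : ℂ => f (z + l + t • e)) (fderiv ℂ f (z + l) e) 0 :=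
    hasDerivAt_line hfd (z + l) e
  have h3 : HasDerivAt (fun t : ℂ => f (z + t • e)) (fderiv ℂ f z e) 0 :=
    hasDerivAt_line hfd z e
  have h4 : HasDerivAt (fun t : ℂ => Complex.exp (2 * B l z + B l l + t * (2 * B l e)))
      (EE B l z * (2 * B l e)) 0 := by
    have h5 : HasDerivAt (fun t : ℂ => 2 * B l z + B l l + t * (2 * B l e)) (2 * B l e) 0 :=
      (hasDerivAt_mul_const (x := (0 : ℂ)) (2 * B l e)).const_add _
    have h6 := h5.cexp
    simp only [zero_mul, add_zero] at h6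
    exact h6
  have h5 : (fun t : ℂ => f (z + l + t • e)) =
      fun t : ℂ => Complex.exp (2 * B l z + B l l + t * (2 * B l e)) * f (z + t • e) := by
    funext t
    have e1 : z + l + t • e = (z + t • e) + l := by abel
    rw [e1, hqp l hl]
    unfold EE
    rw [hB.add_right, hB.smul_right]
    congr 2
    ring
  rw [h5] at h2
  have h6 := h2.unique (h4.mul h3)
  simp only [zero_mul, add_zero, zero_smul] at h6
  have h7 : Complex.exp (2 * B l z + B l l) = EE B l z := rfl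
  rw [h7] at h6
  unfold pd
  rw [h6]
  ring

/-- THE EVALUATION THEOREM -/
theorem eval_theta (hB : HB B) (hf : AE f) (L : AddSubgroup (ι → ℂ))
    (hqp : ∀ l ∈ L, ∀ z, f (z + l) = Complex.exp (2 * B l z + B l l) * f z)
    (hco : ∃ R : ℝ, ∀ z, ∃ l ∈ L, ‖z - l‖ ≤ R) {n : ℕ} (hn : 2 ≤ n) {p : ι → ℂ}
    (hp : ((n : ℂ) - 1) • p ∈ L) (hne : f p ≠ 0) :
    IsAlgebraic ℚ (f p * Complex.exp (-(B p p))) ∧
      ∀ u, IsAlgebraic ℚ ((fderiv ℂ f p (Pi.single u 1) - 2 * B p (Pi.single u 1) * f p) *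
        Complex.exp (-(B p p))) := by
  obtain ⟨φ, h, ha⟩ := hf
  have hfA : AE f := ⟨φ, h, ha⟩
  have hqp' : ∀ l ∈ L, ∀ z, f (z + l) = EE B l z * f z := hqp
  have hnp : (n : ℂ) • p = p + ((n : ℂ) - 1) • p := by
    rw [sub_smul, one_smul]
    abel
  have hcj : (starRingEnd ℂ) ((n : ℂ) - 1) = (n : ℂ) - 1 := by
    rw [map_sub, conj_nat, map_one]
  have hfnp : f ((n : ℂ) • p) = EE B (((n : ℂ) - 1) • p) p * f p := by
    rw [hnp, hqp' _ hp]
  have hEp : EE B (((n : ℂ) - 1) • p) p = Complex.exp (((n ^ 2 - 1 : ℕ) : ℂ) * B p p) := by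
    unfold EE
    rw [hB.smul_left, hB.smul_left, hB.smul_right, hcj]
    congr 1
    have h1 : (1 : ℕ) ≤ n ^ 2 := Nat.one_le_pow _ _ (by omega)
    rw [Nat.cast_sub h1]
    push_cast
    ring
  have hfnp0 : f ((n : ℂ) • p) ≠ 0 := by
    rw [hfnp]
    exact mul_ne_zero (EE_ne _ _ _) hne
  have hAn : AE (fun z => f ((n : ℂ) • z)) := hfA.scale n
  -- first value
  have h1 : IsAlgebraic ℚ ((f ((n : ℂ) • p) ^ 4 * f p ^ 3) / F0 n f p) := by
    refine ev_gen (G := fun z => f ((n : ℂ) • z) ^ 4 * f z ^ 3) hB h ha hqp' hco hn hp hne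
      ((hAn.pow 4).mul (hfA.pow 3)) ?_
    intro l hl z
    rw [f_scale_qp hB hqp' n hl, hqp' l hl]
    ring
  set X : ℂ := f p * Complex.exp (-(B p p)) with hX
  have h2 : (f ((n : ℂ) • p) ^ 4 * f p ^ 3) / F0 n f p * X ^ (n ^ 2 - 1) = 1 := by
    unfold F0
    have h3 : f p ^ (3 + n ^ 2) = f p ^ 3 * (f p * f p ^ (n ^ 2 - 1)) := by
      rw [← pow_succ', ← pow_add]
      congr 1
      have h4 : (1 : ℕ) ≤ n ^ 2 := Nat.one_le_pow _ _ (by omega)
      omega
    have h4 : X ^ (n ^ 2 - 1) = f p ^ (n ^ 2 - 1) *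
        (Complex.exp (((n ^ 2 - 1 : ℕ) : ℂ) * B p p))⁻¹ := by
      rw [hX, mul_pow, ← Complex.exp_nat_mul, ← Complex.exp_neg]
      congr 2
      ring
    rw [h3, h4]
    have h5 : f ((n : ℂ) • p) ^ 4 = f ((n : ℂ) • p) ^ 3 *
        (Complex.exp (((n ^ 2 - 1 : ℕ) : ℂ) * B p p) * f p) := by
      rw [← hEp, ← hfnp, ← pow_succ]
    rw [h5]
    have h6 : Complex.exp (((n ^ 2 - 1 : ℕ) : ℂ) * B p p) ≠ 0 := Complex.exp_ne_zero _
    field_simp
  have hXa : IsAlgebraic ℚ X := by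
    have h3 : X ^ (n ^ 2 - 1) = ((f ((n : ℂ) • p) ^ 4 * f p ^ 3) / F0 n f p)⁻¹ :=
      eq_inv_of_mul_eq_one_right h2
    have h4 : 0 < n ^ 2 - 1 := by
      have : 2 ^ 2 ≤ n ^ 2 := Nat.pow_le_pow_left hn 2
      omega
    refine IsAlgebraic.of_pow h4 ?_
    rw [h3]
    exact h1.inv
  refine ⟨hXa, fun u => ?_⟩
  set G : (ι → ℂ) → ℂ := fun z => (pd u f ((n : ℂ) • z) * f z - (n : ℂ) * (pd u f z *
    f ((n : ℂ) • z))) * (f ((n : ℂ) • z) ^ 2 * f z ^ (2 + n ^ 2)) with hG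
  have h3 : IsAlgebraic ℚ (G p / F0 n f p) := by
    refine ev_gen hB h ha hqp' hco hn hp hne ?_ ?_
    · exact ((((hfA.pd u).scale n).mul hfA).sub
        (((hfA.pd u).mul hAn).smul (isAlgebraic_natCast n))).mul ((hAn.pow 2).mul (hfA.pow _))
    · intro l hl z
      have h5 : pd u f ((n : ℂ) • (z + l)) = EE B l z ^ (n ^ 2) *
          (2 * (n * B l (Pi.single u 1)) * f ((n : ℂ) • z) + pd u f ((n : ℂ) • z)) := by
        rw [smul_add, pd_qp hB h.diff hqp' u (nsmul_mem' hl n), EE_scale hB, hB.smul_left,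
          conj_nat]
      simp only [hG]
      rw [h5, f_scale_qp hB hqp' n hl, hqp' l hl, pd_qp hB h.diff hqp' u hl]
      ring
  have h4 : G p / F0 n f p = (1 - (n : ℂ)) *
      ((pd u f p - 2 * B p (Pi.single u 1) * f p) / f p) := by
    have h5 : pd u f ((n : ℂ) • p) = EE B (((n : ℂ) - 1) • p) p *
        (2 * (((n : ℂ) - 1) * B p (Pi.single u 1)) * f p + pd u f p) := by
      rw [hnp, pd_qp hB h.diff hqp' u hp, hB.smul_left, hcj]
    simp only [hG]
    unfold F0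
    have h6 := EE_ne B (((n : ℂ) - 1) • p) p
    rw [h5, hfnp, show 3 + n ^ 2 = (2 + n ^ 2) + 1 by ring, pow_succ (f p)]
    field_simp
    ring
  rw [h4] at h3
  have hn1 : (1 - (n : ℂ)) ≠ 0 := by
    intro hh
    have h12 : ((1 : ℕ) : ℂ) = (n : ℂ) := by
      rw [Nat.cast_one]
      exact sub_eq_zero.1 hh
    have h13 := Nat.cast_injective h12
    omega
  have h5 : IsAlgebraic ℚ ((pd u f p - 2 * B p (Pi.single u 1) * f p) / f p) := by
    have h6 : (pd u f p - 2 * B p (Pi.single u 1) * f p) / f p = (1 - (n : ℂ))⁻¹ *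
        ((1 - (n : ℂ)) * ((pd u f p - 2 * B p (Pi.single u 1) * f p) / f p)) := by
      rw [← mul_assoc, inv_mul_cancel₀ hn1, one_mul]
    rw [h6]
    refine IsAlgebraic.mul (IsAlgebraic.inv ?_) h3
    exact isAlgebraic_one.sub (isAlgebraic_natCast n)
  have h6 : (fderiv ℂ f p (Pi.single u 1) - 2 * B p (Pi.single u 1) * f p) *
      Complex.exp (-(B p p)) = ((pd u f p - 2 * B p (Pi.single u 1) * f p) / f p) * X := by
    rw [hX]
    unfold pd
    field_simp
  rw [h6]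
  exact h5.mul hXa

end

end

end Pool.Agent.Helper7.SH
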