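import Pool.Agent.Helper49.SH.Df
import Pool.Agent.Helper53.LX.Th

/-!
PROJECT ALLQ (MP_274814_nt), block K_base: the embeddings `em q u` of `C^(φ(q))`.
-/

set_option autoImplicit false

namespace Pool.Agent.Helper7.SH

open Finset Complex Pool.Agent.Helper34.LT LTG Pool.Agent.Helper34.LU Pool.Agent.Helper49.SH

noncomputable section

/-- `em` as a linear map -/
def emL (q u : ℕ) : (Iq q → ℂ) →ₗ[ℂ] ℂ where
  toFun := em q u
  map_add' a b := by simp [Pool.Agent.Helper49.SH.em, add_mul, Finset.sum_add_distrib]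
  map_smul' c a := by simp [Pool.Agent.Helper49.SH.em, Finset.mul_sum, mul_assoc]

theorem emL_apply (q u : ℕ) (w : Iq q → ℂ) : emL q u w = em q u w := rfl

theorem em_add (q u : ℕ) (a b : Iq q → ℂ) : em q u (a + b) = em q u a + em q u b :=
  map_add (emL q u) a b

theorem em_smul (q u : ℕ) (c : ℂ) (a : Iq q → ℂ) : em q u (c • a) = c * em q u a :=
  map_smul (emL q u) c a

theorem em_zero (q u : ℕ) : em q u 0 = 0 := map_zero (emL q u)

theorem em_cj (q u : ℕ) (hq : q ≠ 0) (hu : u ≤ q) (w : Iq q → ℂ) :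
    em q (q - u) (cj w) = (starRingEnd ℂ) (em q u w) := by
  unfold Pool.Agent.Helper49.SH.em cj
  rw [map_sum]
  refine Finset.sum_congr rfl fun i _ => ?_
  rw [map_mul, map_pow, Pool.Agent.Helper59.LT.zt_conj q hq, inv_pow]
  congr 1
  refine eq_inv_of_mul_eq_one_left ?_
  rw [← pow_add, ← add_mul, Nat.sub_add_cancel hu, pow_mul, Pool.Agent.Helper59.LT.zt_pow q hq,
    one_pow]

theorem cj_cj {ι : Type} (w : ι → ℂ) : cj (cj w) = w := by
  funext i
  simp [cj]

theorem em_cj' (q u : ℕ) (hq : q ≠ 0) (hu : u ≤ q) (w : Iq q → ℂ) :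
    em q u (cj w) = (starRingEnd ℂ) (em q (q - u) w) := by
  have h := em_cj q (q - u) hq (Nat.sub_le _ _) w
  rwa [Nat.sub_sub_self hu] at h

theorem card_UU (q : ℕ) (h3 : 3 ≤ q) : (UU q).card = q.totient := by
  rw [Nat.totient_eq_card_coprime]
  congr 1
  ext u
  rw [mem_UU, mem_filter, mem_range]
  constructor
  · rintro ⟨⟨h1, h2⟩, h⟩
    exact ⟨by omega, h.symm⟩
  · rintro ⟨h1, h⟩
    refine ⟨⟨?_, by omega⟩, h.symm⟩
    rcases Nat.eq_zero_or_pos u with rfl | h2
    · rw [Nat.coprime_zero_right] at h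
      omega
    · exact h2

theorem em_eval (q u : ℕ) (w : Iq q → ℂ) :
    em q u w = Polynomial.eval (zt q ^ u) (∑ i : Iq q, Polynomial.C (w i) * Polynomial.X ^ (i : ℕ)) := by
  rw [Polynomial.eval_finset_sum]
  refine Finset.sum_congr rfl fun i _ => ?_
  rw [Polynomial.eval_mul, Polynomial.eval_C, Polynomial.eval_pow, Polynomial.eval_X, ← pow_mul]

/-- the embeddings separate -/
theorem em_inj (q : ℕ) (h3 : 3 ≤ q) (w : Iq q → ℂ) (h : ∀ u ∈ UU q, em q u w = 0) : w = 0 := by
  classical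
  have hq : q ≠ 0 := by omega
  set p : Polynomial ℂ := ∑ i : Iq q, Polynomial.C (w i) * Polynomial.X ^ (i : ℕ) with hp
  have hpos : 0 < q.totient := Nat.totient_pos.2 (by omega)
  have hdeg : p.natDegree < (UU q).card := by
    rw [card_UU q h3]
    refine lt_of_le_of_lt (Polynomial.natDegree_sum_le_of_forall_le (n := q.totient - 1) _ _ ?_)
      (by omega)
    intro i _
    refine (Polynomial.natDegree_C_mul_X_pow_le _ _).trans ?_
    have := i.2
    omega
  have hp0 : p = 0 := by
    refine Polynomial.eq_zero_of_natDegree_lt_card_of_eval_eq_zero' p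
      ((UU q).image fun u => zt q ^ u) ?_ ?_
    · intro x hx
      obtain ⟨u, hu, rfl⟩ := Finset.mem_image.1 hx
      rw [hp, ← em_eval]
      exact h u hu
    · rw [Finset.card_image_of_injOn]
      · exact hdeg
      · intro u hu v hv huv
        have hu' := (mem_UU.1 hu).1
        have hv' := (mem_UU.1 hv).1
        exact (Pool.Agent.Helper59.LT.zt_prim q hq).pow_inj (by omega) (by omega) huv
  funext i
  have h1 := congrArg (fun r : Polynomial ℂ => r.coeff (i : ℕ)) hp0
  simp only [hp, Polynomial.finset_sum_coeff, Polynomial.coeff_C_mul, Polynomial.coeff_X_pow,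
    Polynomial.coeff_zero] at h1
  rw [Finset.sum_eq_single i] at h1
  · simpa using h1
  · intro j _ hji
    rw [if_neg (fun h => hji (Fin.ext h.symm)), mul_zero]
  · intro h
    exact absurd (mem_univ i) h

/-- all embeddings together -/
def emA (q : ℕ) : (Iq q → ℂ) →ₗ[ℂ] (UU q → ℂ) := LinearMap.pi fun u => emL q u

theorem emA_bij (q : ℕ) (h3 : 3 ≤ q) : Function.Bijective (emA q) := by
  have hi : Function.Injective (emA q) := by
    rw [← LinearMap.ker_eq_bot, LinearMap.ker_eq_bot']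
    intro w hw
    exact em_inj q h3 w fun u hu => congrFun hw ⟨u, hu⟩
  refine ⟨hi, ?_⟩
  refine (LinearMap.injective_iff_surjective_of_finrank_eq_finrank ?_).1 hi
  rw [Module.finrank_pi, Module.finrank_pi, Fintype.card_coe, card_UU q h3, Fintype.card_fin]

theorem em_surj (q : ℕ) (h3 : 3 ≤ q) (a : ℕ → ℂ) : ∃ w : Iq q → ℂ, ∀ u ∈ UU q, em q u w = a u := by
  obtain ⟨w, hw⟩ := (emA_bij q h3).2 (fun u => a u)
  exact ⟨w, fun u hu => congrFun hw ⟨u, hu⟩⟩

theorem HS_UU {q : ℕ} {s : Finset ℕ} (hs : HS q s) {u : ℕ} (hu : u ∈ s) : u ∈ UU q :=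
  HS_mem hs ⟨u, hu⟩

theorem HS_UU' {q : ℕ} {s : Finset ℕ} (hs : HS q s) {u : ℕ} (hu : u ∈ s) : q - u ∈ UU q :=
  HS_mem' hs ⟨u, hu⟩

/-- real vectors with given embeddings in a type -/
theorem em_real (q : ℕ) (s : Finset ℕ) (hs : HS q s) (a : ℕ → ℂ) :
    ∃ x : Iq q → ℝ, ∀ u ∈ s, em q u (fun i => (x i : ℂ)) = a u := by
  have h3 := hs.three
  have hq : q ≠ 0 := by omega
  obtain ⟨w, hw⟩ := em_surj q h3 (fun u => if u ∈ s then a u else (starRingEnd ℂ) (a (q - u)))
  have hc : cj w = w := by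
    have h0 : cj w - w = 0 := by
      refine em_inj q h3 _ fun u hu => ?_
      obtain ⟨⟨u1, u2⟩, u3⟩ := mem_UU.1 hu
      have e1 : em q u (cj w - w) = em q u (cj w) - em q u w := map_sub (emL q u) _ _
      have hu' : q - u ∈ UU q := mem_UU.2 ⟨⟨by omega, by omega⟩,
        (Nat.coprime_self_sub_left (by omega : u ≤ q)).2 u3⟩
      rw [e1, em_cj' q u hq (by omega), hw u hu, hw (q - u) hu']
      have hh := hs.half u u1 (by omega) u3
      by_cases h : u ∈ s
      · rw [if_pos h, if_neg (hh.1 h), Nat.sub_sub_self (by omega : u ≤ q), Complex.conj_conj,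
          sub_self]
      · have h' : q - u ∈ s := by
          by_contra h4
          exact h (hh.2 h4)
        rw [if_neg h, if_pos h', sub_self]
    exact sub_eq_zero.1 h0
  refine ⟨fun i => (w i).re, fun u hu => ?_⟩
  have h1 : (fun i => (((w i).re : ℝ) : ℂ)) = w := by
    funext i
    have := congrFun hc i
    exact (Complex.conj_eq_iff_re.1 this)
  rw [h1, hw u (HS_UU hs hu), if_pos hu]

theorem mem_Ns {q : ℕ} {s : Finset ℕ} {w : Iq q → ℂ} : w ∈ Ns q s ↔ ∀ u ∈ s, em q u w = 0 :=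
  Iff.rfl

/-- dimension -/
theorem finrank_Ns (q : ℕ) (s : Finset ℕ) (hs : HS q s) :
    2 * Module.finrank ℂ (Ns q s) = Fintype.card (Iq q) := by
  have h3 := hs.three
  have hcs := Pool.Agent.Helper53.LX.card_half q s hs
  have he : Even q.totient := Nat.totient_even (by omega)
  set T : (Iq q → ℂ) →ₗ[ℂ] (s → ℂ) := LinearMap.pi fun u => emL q u with hT
  have hk : LinearMap.ker T = Ns q s := by
    ext w
    rw [LinearMap.mem_ker, mem_Ns]
    constructor
    · intro h u hu
      exact congrFun h ⟨u, hu⟩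
    · intro h
      funext u
      exact h u u.2
  have hsur : Function.Surjective T := by
    intro a
    obtain ⟨w, hw⟩ := em_surj q h3 (fun u => if h : u ∈ s then a ⟨u, h⟩ else 0)
    refine ⟨w, ?_⟩
    funext u
    have := hw u (HS_UU hs u.2)
    rw [dif_pos u.2] at this
    exact this
  have h1 := LinearMap.finrank_range_add_finrank_ker T
  rw [LinearMap.range_eq_top.2 hsur, finrank_top, Module.finrank_pi, Module.finrank_pi,
    Fintype.card_coe, hcs, Fintype.card_fin, hk] at h1
  rw [Fintype.card_fin]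
  obtain ⟨k, hk⟩ := he
  omega

end

end Pool.Agent.Helper7.SH
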