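import Pool.Agent.Helper7.SH.Ke

/-!
PROJECT ALLQ (MP_274814_nt), block K_base: from a theta function of LT2 to `KForm`, `Pol`, `AT`.
-/

set_option autoImplicit false

namespace Pool.Agent.Helper7.SH

open Finset Complex Pool.Agent.Helper34.LT LTG Pool.Agent.Helper34.LU Pool.Agent.Helper49.SH

noncomputable section

/-- `∑_{u ∈ s} κ_u ρ_u em_u em_{q-u}` -/
def Qf (q : ℕ) (s : Finset ℕ) (ρ : ℕ → ℂ) (κ : s → ℂ) (w : Iq q → ℂ) : ℂ :=
  ∑ u : s, κ u * ρ u * em q u w * em q (q - u) w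

/-- coordinates -/
def zc (q : ℕ) (s : Finset ℕ) (ρ : ℕ → ℂ) (w : Iq q → ℂ) : s → ℂ := fun u => ρ u * em q u w

/-- the theta function on the whole space -/
def FK (q : ℕ) (s : Finset ℕ) (ρ : ℕ → ℂ) (κ : s → ℂ) (f : (s → ℂ) → ℂ) (w : Iq q → ℂ) : ℂ :=
  Complex.exp (-(Qf q s ρ κ w)) * (f (zc q s ρ w) * f (-(zc q s ρ w)))

/-- the form, over `ℂ` -/
def Bf (q : ℕ) (s : Finset ℕ) (ρ : ℕ → ℂ) (κ : s → ℂ) (x y : Iq q → ℂ) : ℂ :=
  ∑ u : s, κ u * ρ u / (Real.pi * I) *
    (em q u x * em q (q - u) y - em q (q - u) x * em q u y)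

variable {q : ℕ} {s : Finset ℕ} {ρ : ℕ → ℂ} {κ : s → ℂ} {c : Polynomial ℤ → ℂ}
  {f : (s → ℂ) → ℂ}

/-- integral vector as a polynomial -/
def pl (q : ℕ) (l : Iq q → ℤ) : Polynomial ℤ :=
  ∑ i : Iq q, Polynomial.C (l i) * Polynomial.X ^ (i : ℕ)

theorem pt_pl (l : Iq q → ℤ) (u : s) : pt q s (pl q l) u = em q u (zv l) := by
  unfold pt pl Pool.Agent.Helper49.SH.em zv
  rw [map_sum]
  refine Finset.sum_congr rfl fun i _ => ?_
  rw [map_mul, map_pow, Polynomial.aeval_X, Polynomial.aeval_C, ← pow_mul]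
  simp

theorem cj_zv {ι : Type} (l : ι → ℤ) : cj (zv l) = zv l := by
  funext i
  simp [cj, zv]

theorem conj_pt_pl (hs : HS q s) (l : Iq q → ℤ) (u : s) :
    (starRingEnd ℂ) (pt q s (pl q l) u) = em q (q - u) (zv l) := by
  obtain ⟨h1, h2, -⟩ := hs.mem u u.2
  have h3 := hs.three
  rw [pt_pl, ← em_cj q u (by omega) h2.le, cj_zv]

theorem pt_neg (P : Polynomial ℤ) (u : s) : pt q s (-P) u = -pt q s P u := by
  unfold pt
  rw [map_neg]

theorem lamS_neg (P : Polynomial ℤ) : lamS q s ρ (-P) = -lamS q s ρ P := by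
  funext u
  simp [lamS, pt_neg]

/-- the multiplier of `f(z) f(-z)` -/
theorem f2_qp (hne : ∃ z, f z ≠ 0) (hqp : QPS q s ρ κ c f) (P : Polynomial ℤ) (z : s → ℂ) :
    f (z + lamS q s ρ P) * f (-(z + lamS q s ρ P)) =
      Complex.exp (2 * ∑ u, κ u * (starRingEnd ℂ) (pt q s P u) * z u +
        ∑ u : s, κ u * ρ u * ((starRingEnd ℂ) (pt q s P u) * pt q s P u)) * (f z * f (-z)) := by
  obtain ⟨z0, hz0⟩ := hne
  have h1 : f ((z0 + lamS q s ρ P) + lamS q s ρ (-P)) = f z0 := by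
    congr 1
    rw [lamS_neg]
    abel
  rw [hqp, hqp, ← mul_assoc, ← Complex.exp_add] at h1
  have h2 : Complex.exp (∑ u, κ u * (starRingEnd ℂ) (pt q s (-P) u) * (z0 + lamS q s ρ P) u +
      c (-P) + (∑ u, κ u * (starRingEnd ℂ) (pt q s P u) * z0 u + c P)) = 1 := by
    refine mul_right_cancel₀ hz0 ?_
    rw [h1, one_mul]
  have h3 : ∑ u, κ u * (starRingEnd ℂ) (pt q s (-P) u) * (z0 + lamS q s ρ P) u =
      -(∑ u, κ u * (starRingEnd ℂ) (pt q s P u) * z0 u) -
        ∑ u : s, κ u * ρ u * ((starRingEnd ℂ) (pt q s P u) * pt q s P u) := by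
    rw [← Finset.sum_neg_distrib, ← Finset.sum_sub_distrib]
    refine Finset.sum_congr rfl fun u _ => ?_
    rw [pt_neg, map_neg, Pi.add_apply]
    unfold lamS
    ring
  rw [h3] at h2
  have h4 : Complex.exp (c P + c (-P)) =
      Complex.exp (∑ u : s, κ u * ρ u * ((starRingEnd ℂ) (pt q s P u) * pt q s P u)) := by
    have h5 : c P + c (-P) = (-(∑ u, κ u * (starRingEnd ℂ) (pt q s P u) * z0 u) -
        ∑ u : s, κ u * ρ u * ((starRingEnd ℂ) (pt q s P u) * pt q s P u) +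
        c (-P) + (∑ u, κ u * (starRingEnd ℂ) (pt q s P u) * z0 u + c P)) +
        ∑ u : s, κ u * ρ u * ((starRingEnd ℂ) (pt q s P u) * pt q s P u) := by ring
    rw [h5, Complex.exp_add, h2, one_mul]
  have h6 : f (-(z + lamS q s ρ P)) =
      Complex.exp (∑ u, κ u * (starRingEnd ℂ) (pt q s P u) * z u + c (-P)) * f (-z) := by
    have h7 : -(z + lamS q s ρ P) = -z + lamS q s ρ (-P) := by
      rw [lamS_neg]
      abel
    rw [h7, hqp]
    congr 3
    refine Finset.sum_congr rfl fun u _ => ?_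
    rw [pt_neg, map_neg, Pi.neg_apply]
    ring
  rw [h6, hqp, mul_mul_mul_comm, ← Complex.exp_add]
  congr 1
  have h8 : ∑ u, κ u * (starRingEnd ℂ) (pt q s P u) * z u + c P +
      (∑ u, κ u * (starRingEnd ℂ) (pt q s P u) * z u + c (-P)) =
      2 * ∑ u, κ u * (starRingEnd ℂ) (pt q s P u) * z u + (c P + c (-P)) := by ring
  rw [h8, Complex.exp_add, h4, ← Complex.exp_add]

theorem zc_add (w w' : Iq q → ℂ) : zc q s ρ (w + w') = zc q s ρ w + zc q s ρ w' := by
  funext u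
  simp [zc, em_add, mul_add]

theorem zc_zv (l : Iq q → ℤ) : zc q s ρ (zv l) = lamS q s ρ (pl q l) := by
  funext u
  simp [zc, lamS, pt_pl]

/-- quasi-periodicity of `FK` -/
theorem FK_per (hs : HS q s) (hne : ∃ z, f z ≠ 0) (hqp : QPS q s ρ κ c f) (l : Iq q → ℤ)
    (w : Iq q → ℂ) : FK q s ρ κ f (w + zv l) =
      Complex.exp (-(Real.pi * I * Bf q s ρ κ (zv l) w)) * FK q s ρ κ f w := by
  have hpi : (Real.pi * I : ℂ) ≠ 0 := mul_ne_zero (by exact_mod_cast Real.pi_ne_zero) I_ne_zero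
  unfold FK
  rw [zc_add, zc_zv, f2_qp hne hqp]
  conv_lhs => rw [← mul_assoc, ← Complex.exp_add]
  conv_rhs => rw [← mul_assoc, ← Complex.exp_add]
  congr 2
  have e1 : Real.pi * I * Bf q s ρ κ (zv l) w = ∑ u : s, κ u * ρ u *
      (em q u (zv l) * em q (q - u) w - em q (q - u) (zv l) * em q u w) := by
    unfold Bf
    rw [Finset.mul_sum]
    refine Finset.sum_congr rfl fun u _ => ?_
    field_simp
  rw [e1]
  unfold Qf
  simp_rw [conj_pt_pl hs, pt_pl, em_add]
  rw [Finset.mul_sum, ← Finset.sum_neg_distrib, ← Finset.sum_neg_distrib, ← Finset.sum_neg_distrib,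
    ← Finset.sum_add_distrib, ← Finset.sum_add_distrib, ← Finset.sum_add_distrib]
  refine Finset.sum_congr rfl fun u _ => ?_
  unfold zc
  ring

/-- rationality of the form -/
theorem exists_E (hs : HS q s) (hne : ∃ z, f z ≠ 0) (hqp : QPS q s ρ κ c f) :
    ∃ E : Iq q → Iq q → ℚ, (∀ i j, E i j = -E j i) ∧ ∀ w w', Eb E w w' = Bf q s ρ κ w w' := by
  have hpi : (Real.pi * I : ℂ) ≠ 0 := mul_ne_zero (by exact_mod_cast Real.pi_ne_zero) I_ne_zero
  classical
  have h1 : ∀ i j : Iq q, ∃ n : ℤ, Bf q s ρ κ (zv (Pi.single i 1)) (zv (Pi.single j 1)) =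
      ((2 * n : ℤ) : ℂ) := by
    intro i j
    obtain ⟨n, hn⟩ := Pool.Agent.Helper59.LT.pairing_gen q s ρ κ c f hne hqp
      (pl q (Pi.single j 1)) (pl q (Pi.single i 1))
    refine ⟨n, ?_⟩
    have h2 : Real.pi * I * Bf q s ρ κ (zv (Pi.single i 1)) (zv (Pi.single j 1)) =
        n * (2 * Real.pi * I) := by
      rw [← hn]
      unfold Bf
      rw [Finset.mul_sum]
      refine Finset.sum_congr rfl fun u _ => ?_
      rw [conj_pt_pl hs, conj_pt_pl hs, pt_pl, pt_pl]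
      field_simp
    have h3 : Real.pi * I * (Bf q s ρ κ (zv (Pi.single i 1)) (zv (Pi.single j 1)) -
        ((2 * n : ℤ) : ℂ)) = 0 := by
      rw [mul_sub, h2]
      push_cast
      ring
    exact sub_eq_zero.1 ((mul_eq_zero.1 h3).resolve_left hpi)
  choose n hn using h1
  have hE : ∀ w w' : Iq q → ℂ,
      Eb (fun i j => ((2 * n i j : ℤ) : ℚ)) w w' = Bf q s ρ κ w w' := by
    intro w w'
    have hw : ∀ (v : Iq q → ℂ) (u : ℕ), em q u v =
        ∑ i, v i * em q u (zv (Pi.single i 1)) := by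
      intro v u
      conv_lhs => unfold Pool.Agent.Helper49.SH.em
      refine Finset.sum_congr rfl fun i _ => ?_
      congr 1
      unfold Pool.Agent.Helper49.SH.em zv
      rw [Finset.sum_eq_single i]
      · simp
      · intro j _ hji
        rw [Pi.single_eq_of_ne hji]
        simp
      · intro h
        exact absurd (mem_univ i) h
    unfold Eb
    have h4 : ∀ i j : Iq q, ((((2 * n i j : ℤ) : ℚ)) : ℂ) * w i * w' j =
        w i * w' j * Bf q s ρ κ (zv (Pi.single i 1)) (zv (Pi.single j 1)) := by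
      intro i j
      rw [hn i j]
      push_cast
      ring
    simp_rw [h4]
    unfold Bf
    simp_rw [Finset.mul_sum]
    rw [Finset.sum_congr rfl fun i _ => Finset.sum_comm, Finset.sum_comm]
    refine Finset.sum_congr rfl fun u _ => ?_
    rw [hw w u, hw w' (q - u), hw w (q - u), hw w' u, Finset.sum_mul_sum, Finset.sum_mul_sum,
      ← Finset.sum_sub_distrib, Finset.mul_sum]
    refine Finset.sum_congr rfl fun i _ => ?_
    rw [← Finset.sum_sub_distrib, Finset.mul_sum]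
    refine Finset.sum_congr rfl fun j _ => ?_
    ring
  refine ⟨_, fun i j => ?_, hE⟩
  have h5 : Bf q s ρ κ (zv (Pi.single i 1)) (zv (Pi.single j 1)) =
      -Bf q s ρ κ (zv (Pi.single j 1)) (zv (Pi.single i 1)) := by
    unfold Bf
    rw [← Finset.sum_neg_distrib]
    refine Finset.sum_congr rfl fun u _ => ?_
    ring
  rw [hn, hn] at h5
  have h6 : (2 * n i j : ℤ) = -(2 * n j i : ℤ) := by exact_mod_cast h5
  have h7 : ((2 * n i j : ℤ) : ℚ) = ((-(2 * n j i) : ℤ) : ℚ) := by exact_mod_cast h6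
  rw [h7]
  push_cast
  ring

end

end Pool.Agent.Helper7.SH
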