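import Pool.Agent.Helper7.SH.Kf

/-!
PROJECT ALLQ (MP_274814_nt), block K_base: non-vanishing, analytic properties, the polynomial `ξ`.
-/

set_option autoImplicit false

namespace Pool.Agent.Helper7.SH

open Finset Complex Pool.Agent.Helper34.LT LTG Pool.Agent.Helper34.LU Pool.Agent.Helper49.SH

noncomputable section

variable {q : ℕ} {s : Finset ℕ} {ρ : ℕ → ℂ} {κ : s → ℂ} {c : Polynomial ℤ → ℂ}
  {f : (s → ℂ) → ℂ}

theorem prod_ne (hd : Differentiable ℂ f) (hne : ∃ z, f z ≠ 0) : ∃ z, f z * f (-z) ≠ 0 := by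
  obtain ⟨z0, hz0⟩ := hne
  by_contra hcon
  push Not at hcon
  have hl : Differentiable ℂ (fun t : ℂ => t • z0) := differentiable_id.smul_const z0
  have h1 : AnalyticOnNhd ℂ (fun t : ℂ => f (t • z0)) Set.univ :=
    (hd.comp hl).differentiableOn.analyticOnNhd isOpen_univ
  have h2 : AnalyticOnNhd ℂ (fun t : ℂ => f (-(t • z0))) Set.univ :=
    (hd.comp hl.neg).differentiableOn.analyticOnNhd isOpen_univ
  rcases AnalyticOnNhd.eq_zero_or_eq_zero_of_mul_eq_zero h1 h2 (fun t _ => hcon (t • z0))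
    isPreconnected_univ with h | h
  · have := h 1 (Set.mem_univ _)
    rw [one_smul] at this
    exact hz0 this
  · have := h (-1) (Set.mem_univ _)
    rw [neg_smul, one_smul, neg_neg] at this
    exact hz0 this

theorem zc_real (hs : HS q s) (hρ : ∀ u ∈ s, ρ u ≠ 0) (z : s → ℂ) :
    ∃ x : Iq q → ℝ, zc q s ρ (fun i => (x i : ℂ)) = z := by
  obtain ⟨x, hx⟩ := em_real q s hs (fun u => if h : u ∈ s then z ⟨u, h⟩ / ρ u else 0)
  refine ⟨x, ?_⟩
  funext u
  unfold zc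
  rw [hx u u.2, dif_pos u.2, mul_div_cancel₀ _ (hρ u u.2)]

theorem FK_ne (hs : HS q s) (hρ : ∀ u ∈ s, ρ u ≠ 0) (hd : Differentiable ℂ f)
    (hne : ∃ z, f z ≠ 0) : FK q s ρ κ f ≠ 0 := by
  obtain ⟨z, hz⟩ := prod_ne hd hne
  obtain ⟨x, hx⟩ := zc_real hs hρ z
  intro h
  have h1 := congrFun h (fun i => (x i : ℂ))
  unfold FK at h1
  rw [hx] at h1
  rcases mul_eq_zero.1 h1 with h2 | h2
  · exact Complex.exp_ne_zero _ h2
  · exact hz h2

theorem em_diff (u : ℕ) : Differentiable ℂ (fun w : Iq q → ℂ => em q u w) :=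
  (LinearMap.toContinuousLinearMap (emL q u)).differentiable

theorem Qf_diff : Differentiable ℂ (Qf q s ρ κ) := by
  unfold Qf
  refine Differentiable.fun_sum fun u _ => ?_
  exact ((em_diff (u : ℕ)).const_mul (κ u * ρ u)).mul (em_diff (q - (u : ℕ)))

theorem zc_diff : Differentiable ℂ (zc q s ρ) := by
  rw [differentiable_pi]
  intro u
  exact (em_diff (u : ℕ)).const_mul (ρ u)

theorem FK_diff (hd : Differentiable ℂ f) : Differentiable ℂ (FK q s ρ κ f) := by
  unfold FK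
  exact (Qf_diff.neg.cexp).mul ((hd.comp zc_diff).mul (hd.comp zc_diff.neg))

/-- antiholomorphic derivative -/
theorem FK_hol (hd : Differentiable ℂ f) {e : Iq q → ℂ} (he : e ∈ Ns q s) (w : Iq q → ℂ) :
    fderiv ℂ (FK q s ρ κ f) w e = Real.pi * I * Bf q s ρ κ e w * FK q s ρ κ f w := by
  have hpi : (Real.pi * I : ℂ) ≠ 0 := mul_ne_zero (by exact_mod_cast Real.pi_ne_zero) I_ne_zero
  have he' := mem_Ns.1 he
  have h1 : HasDerivAt (fun t : ℂ => FK q s ρ κ f (w + t • e)) (fderiv ℂ (FK q s ρ κ f) w e) 0 := by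
    have h2 : HasDerivAt (fun t : ℂ => w + t • e) e 0 := by
      simpa using ((hasDerivAt_id (0 : ℂ)).smul_const e).const_add w
    have h3 : HasFDerivAt (FK q s ρ κ f) (fderiv ℂ (FK q s ρ κ f) w) (w + (0 : ℂ) • e) := by
      rw [zero_smul, add_zero]
      exact (FK_diff hd w).hasFDerivAt
    exact h3.comp_hasDerivAt 0 h2
  set L : ℂ := ∑ u : s, κ u * ρ u * (em q u w * em q (q - u) e) with hL
  have h4 : ∀ t : ℂ, FK q s ρ κ f (w + t • e) = Complex.exp (-(t * L)) * FK q s ρ κ f w := by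
    intro t
    have h5 : zc q s ρ (w + t • e) = zc q s ρ w := by
      funext u
      simp [zc, em_add, em_smul, he' u u.2]
    have h6 : Qf q s ρ κ (w + t • e) = Qf q s ρ κ w + t * L := by
      unfold Qf
      rw [hL, Finset.mul_sum, ← Finset.sum_add_distrib]
      refine Finset.sum_congr rfl fun u _ => ?_
      rw [em_add, em_smul, he' u u.2, em_add, em_smul]
      ring
    unfold FK
    rw [h5, h6, neg_add, Complex.exp_add]
    ring
  have h7 : HasDerivAt (fun t : ℂ => FK q s ρ κ f (w + t • e)) (-L * FK q s ρ κ f w) 0 := by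
    simp_rw [h4]
    have h8 : HasDerivAt (fun t : ℂ => -(t * L)) (-L) 0 := by
      exact (hasDerivAt_mul_const (x := (0 : ℂ)) L).fun_neg
    have h9 := (h8.cexp).mul_const (FK q s ρ κ f w)
    simpa using h9
  rw [h1.unique h7]
  congr 1
  unfold Bf
  rw [Finset.mul_sum, hL, ← Finset.sum_neg_distrib]
  refine Finset.sum_congr rfl fun u _ => ?_
  rw [he' u u.2]
  field_simp
  ring

theorem FK_AT (hs : HS q s) (hd : Differentiable ℂ f) (hne : ∃ z, f z ≠ 0)
    (hqp : QPS q s ρ κ c f) {E : Iq q → Iq q → ℚ}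
    (hE : ∀ w w', Eb E w w' = Bf q s ρ κ w w') : AT E (Ns q s) (FK q s ρ κ f) where
  diff := FK_diff hd
  hol e he w := by rw [FK_hol hd he, hE]
  per := by
    refine ⟨1, le_rfl, fun l w => ?_⟩
    rw [hE, Nat.cast_one, one_smul, mul_one]
    exact FK_per hs hne hqp l w

/-- the value of `ξ` at the embedding `v` -/
def Kx (q : ℕ) (s : Finset ℕ) (ρ : ℕ → ℂ) (κ : s → ℂ) (v : ℕ) : ℂ :=
  (if h : v ∈ s then κ ⟨v, h⟩ * ρ v / (Real.pi * I) else 0) -
    (if h : q - v ∈ s then κ ⟨q - v, h⟩ * ρ (q - v) / (Real.pi * I) else 0)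

theorem exists_xi (hs : HS q s) (hne : ∃ z, f z ≠ 0) (hqp : QPS q s ρ κ c f) :
    ∃ ξ : Polynomial ℚ, ∀ v ∈ UU q, Polynomial.aeval (zt q ^ v) ξ = Kx q s ρ κ v := by
  classical
  have h3 := hs.three
  have hq : q ≠ 0 := by omega
  have hq' : (q : ℂ) ≠ 0 := by exact_mod_cast hq
  have hpi : (2 * Real.pi * Complex.I : ℂ) ≠ 0 := Complex.two_pi_I_ne_zero
  have h1 : ∀ n : ℕ, ∃ e : ℤ, ∑ u : s, κ u * ρ u / (2 * Real.pi * Complex.I) *
      ((zt q ^ (u : ℕ)) ^ n - ((zt q ^ (u : ℕ))⁻¹) ^ n) = e := by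
    intro n
    obtain ⟨e, he⟩ := Pool.Agent.Helper59.LT.pairing_gen q s ρ κ c f hne hqp 1 (Polynomial.X ^ n)
    refine ⟨e, ?_⟩
    have h2 : ∑ u : s, κ u * ρ u / (2 * Real.pi * Complex.I) *
      ((zt q ^ (u : ℕ)) ^ n - ((zt q ^ (u : ℕ))⁻¹) ^ n) =
      (∑ u : s, κ u * ρ u *
      ((starRingEnd ℂ) (pt q s 1 u) * pt q s (Polynomial.X ^ n) u -
        (starRingEnd ℂ) (pt q s (Polynomial.X ^ n) u) * pt q s 1 u)) /
        (2 * Real.pi * Complex.I) := by
      rw [Finset.sum_div]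
      refine Finset.sum_congr rfl fun u _ => ?_
      simp only [pt, map_one, map_pow, Polynomial.aeval_X, one_mul, mul_one,
        Pool.Agent.Helper59.LT.zt_conj q hq, inv_pow]
      ring
    rw [h2, he, mul_div_cancel_right₀ _ hpi]
  choose e he using h1
  refine ⟨∑ n ∈ range q, Polynomial.C ((2 * e n : ℚ) / q) * Polynomial.X ^ ((q - 1) * n), ?_⟩
  intro v hv
  obtain ⟨⟨v1, v2⟩, v3⟩ := mem_UU.1 hv
  have h4 : Polynomial.aeval (zt q ^ v)
      (∑ n ∈ range q, Polynomial.C ((2 * e n : ℚ) / q) * Polynomial.X ^ ((q - 1) * n)) =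
      2 / q * ∑ n ∈ range q, (e n : ℂ) * ((zt q ^ v)⁻¹) ^ n := by
    rw [map_sum, Finset.mul_sum]
    refine Finset.sum_congr rfl fun n _ => ?_
    have h5 : (zt q ^ v) ^ (q - 1) = (zt q ^ v)⁻¹ := by
      refine eq_inv_of_mul_eq_one_left ?_
      rw [← pow_succ, show q - 1 + 1 = q by omega, ← pow_mul, mul_comm, pow_mul,
        Pool.Agent.Helper59.LT.zt_pow q hq, one_pow]
    rw [map_mul, map_pow, Polynomial.aeval_X, Polynomial.aeval_C, pow_mul, h5]
    simp
    ring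
  rw [h4]
  have h6 : ∑ n ∈ range q, (e n : ℂ) * ((zt q ^ v)⁻¹) ^ n =
      ∑ u : s, κ u * ρ u / (2 * Real.pi * Complex.I) *
        ((if v = u then (q : ℂ) else 0) - (if v = q - u then (q : ℂ) else 0)) := by
    simp_rw [← he, Finset.sum_mul]
    rw [Finset.sum_comm]
    refine Finset.sum_congr rfl fun u _ => ?_
    obtain ⟨u1, u2, u3⟩ := hs.mem u u.2
    rw [← Pool.Agent.Helper59.LT.zt_orth q v u hq (by omega) u2,
      ← Pool.Agent.Helper59.LT.zt_orth q v (q - u) hq (by omega) (by omega),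
      ← Finset.sum_sub_distrib, Finset.mul_sum]
    refine Finset.sum_congr rfl fun n _ => ?_
    have h7 : zt q ^ (q - (u : ℕ)) = (zt q ^ (u : ℕ))⁻¹ := by
      refine eq_inv_of_mul_eq_one_left ?_
      rw [← pow_add, Nat.sub_add_cancel u2.le, Pool.Agent.Helper59.LT.zt_pow q hq]
    rw [h7]
    ring
  rw [h6]
  unfold Kx
  have h8 : ∀ (a : s → ℂ) (w : ℕ), ∑ u : s, a u * (if w = u then (q : ℂ) else 0) =
      q * (if h : w ∈ s then a ⟨w, h⟩ else 0) := by
    intro a w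
    split_ifs with h
    · rw [Finset.sum_eq_single (⟨w, h⟩ : s)]
      · rw [if_pos rfl]
        ring
      · intro u _ hu
        rw [if_neg (fun h9 => hu (Subtype.ext h9.symm)), mul_zero]
      · intro h9
        exact absurd (mem_univ _) h9
    · rw [mul_zero]
      refine Finset.sum_eq_zero fun u _ => ?_
      rw [if_neg, mul_zero]
      rintro rfl
      exact h u.2
  have h9 : ∀ u : s, (v = q - (u : ℕ)) ↔ (q - v = (u : ℕ)) := by
    intro u
    obtain ⟨u1, u2, u3⟩ := hs.mem u u.2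
    omega
  simp_rw [h9, mul_sub]
  rw [Finset.sum_sub_distrib, h8, h8]
  have h10 : ∀ (w : ℕ), 2 / (q : ℂ) * (q * (if h : w ∈ s then
      κ ⟨w, h⟩ * ρ w / (2 * Real.pi * Complex.I) else 0)) =
      if h : w ∈ s then κ ⟨w, h⟩ * ρ w / (Real.pi * I) else 0 := by
    intro w
    split_ifs with h
    · field_simp
    · simp
  rw [mul_sub]
  simp only
  rw [h10, h10]

theorem Kx_mem (hs : HS q s) (u : s) : Kx q s ρ κ u = κ u * ρ u / (Real.pi * I) := by
  obtain ⟨u1, u2, u3⟩ := hs.mem u u.2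
  unfold Kx
  rw [dif_pos u.2, dif_neg ((hs.half u u1 u2 u3).1 u.2), sub_zero]

theorem Kx_neg (hs : HS q s) (u : s) : Kx q s ρ κ (q - u) = -(κ u * ρ u / (Real.pi * I)) := by
  obtain ⟨u1, u2, u3⟩ := hs.mem u u.2
  unfold Kx
  have h1 : q - (q - (u : ℕ)) = u := Nat.sub_sub_self u2.le
  rw [dif_neg ((hs.half u u1 u2 u3).1 u.2)]
  simp only [h1]
  rw [dif_pos u.2, zero_sub]

/-- sums over the units -/
theorem sum_UU (hs : HS q s) (g : ℕ → ℂ) : ∑ u ∈ UU q, g u = ∑ u : s, (g u + g (q - u)) := by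
  classical
  have h3 := hs.three
  have h1 : (UU q).filter (fun u => u ∈ s) = s := by
    ext u
    rw [mem_filter]
    exact ⟨fun h => h.2, fun h => ⟨HS_UU hs h, h⟩⟩
  have h2 : (UU q).filter (fun u => ¬ u ∈ s) = s.image (fun u => q - u) := by
    ext u
    rw [mem_filter, mem_image]
    constructor
    · rintro ⟨h4, h5⟩
      obtain ⟨⟨u1, u2⟩, u3⟩ := mem_UU.1 h4
      refine ⟨q - u, ?_, Nat.sub_sub_self (by omega)⟩
      by_contra h6
      exact h5 ((hs.half u u1 (by omega) u3).2 h6)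
    · rintro ⟨v, hv, rfl⟩
      obtain ⟨v1, v2, v3⟩ := hs.mem v hv
      exact ⟨HS_UU' hs hv, (hs.half v v1 v2 v3).1 hv⟩
  rw [← Finset.sum_filter_add_sum_filter_not (UU q) (fun u => u ∈ s), h1, h2,
    Finset.sum_image, ← Finset.sum_add_distrib, ← Finset.sum_coe_sort s]
  intro x hx y hy hxy
  obtain ⟨x1, x2, -⟩ := hs.mem x hx
  obtain ⟨y1, y2, -⟩ := hs.mem y hy
  simp only at hxy
  omega

theorem Bf_sum (hs : HS q s) (w w' : Iq q → ℂ) :
    Bf q s ρ κ w w' = ∑ u ∈ UU q, Kx q s ρ κ u * em q u w * em q (q - u) w' := by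
  rw [sum_UU hs]
  unfold Bf
  refine Finset.sum_congr rfl fun u _ => ?_
  obtain ⟨u1, u2, u3⟩ := hs.mem u u.2
  rw [Kx_mem hs, Kx_neg hs, Nat.sub_sub_self u2.le]
  ring

end

end Pool.Agent.Helper7.SH
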